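import Mathlib
import Pool.Agent.Helper234.LInf.Core

set_option autoImplicit false

open Filter Topology

namespace Pool.Agent.Results.MP_06b617_an.SeparableMonotoneConvergence

variable {X : Type*} [NormedAddCommGroup X] [NormedSpace ℝ X]

/-- `K` is a (norm) closed cone of `X` making `X` an ordered Banach space:
`x ≤ y` means `y - x ∈ K`. -/
structure IsOrderCone (K : Set X) : Prop where
  closed : IsClosed K
  zero_mem : (0 : X) ∈ K
  add_mem : ∀ x ∈ K, ∀ y ∈ K, x + y ∈ K
  smul_mem : ∀ c : ℝ, 0 ≤ c → ∀ x ∈ K, c • x ∈ K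
  salient : ∀ x : X, x ∈ K → -x ∈ K → x = 0

/-- `x` is increasing for the order of the cone `K`. -/
def Increasing (K : Set X) (x : ℕ → X) : Prop := ∀ n, x (n + 1) - x n ∈ K

/-- `x` has an upper bound. -/
def OrderBounded (K : Set X) (x : ℕ → X) : Prop := ∃ v, ∀ n, v - x n ∈ K

/-- `s` is a least upper bound (supremum) of the sequence `x`. -/
def IsSup (K : Set X) (x : ℕ → X) (s : X) : Prop :=
  (∀ n, s - x n ∈ K) ∧ ∀ w, (∀ n, w - x n ∈ K) → w - s ∈ K

/-- Property (S): every order bounded increasing sequence has a supremum. -/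
def PropertyS (K : Set X) : Prop :=
  ∀ x : ℕ → X, Increasing K x → OrderBounded K x → ∃ s, IsSup K x s

section

variable {K : Set X}

theorem IsSup.unique (hK : IsOrderCone K) {x : ℕ → X} {s t : X} (hs : IsSup K x s)
    (ht : IsSup K x t) : s = t := by
  have h1 := hs.2 t ht.1
  have h2 := ht.2 s hs.1
  have h3 := hK.salient (t - s) h1 (by simpa using h2)
  exact (sub_eq_zero.1 h3).symm

theorem sum_mem (hK : IsOrderCone K) (s : Finset ℕ) (f : ℕ → X) (h : ∀ i ∈ s, f i ∈ K) :
    ∑ i ∈ s, f i ∈ K := by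
  classical
  induction s using Finset.induction_on with
  | empty => simpa using hK.zero_mem
  | insert a s ha ih =>
    rw [Finset.sum_insert ha]
    exact hK.add_mem _ (h a (Finset.mem_insert_self _ _)) _
      (ih fun i hi => h i (Finset.mem_insert_of_mem hi))

theorem incr_le (hK : IsOrderCone K) {x : ℕ → X} (hx : Increasing K x) {m n : ℕ} (h : m ≤ n) :
    x n - x m ∈ K := by
  induction n, h using Nat.le_induction with
  | base => simpa using hK.zero_mem
  | succ n _ ih =>
    have := hK.add_mem _ (hx n) _ ih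
    simpa using this

theorem IsSup.add (hK : IsOrderCone K) {x y : ℕ → X} {s t : X} (hx : Increasing K x)
    (hy : Increasing K y) (hs : IsSup K x s) (ht : IsSup K y t) :
    IsSup K (fun n => x n + y n) (s + t) := by
  refine ⟨fun n => ?_, fun w hw => ?_⟩
  · have := hK.add_mem _ (hs.1 n) _ (ht.1 n)
    convert this using 1
    beta_reduce
    abel
  · have h1 : ∀ m n, w - (x m + y n) ∈ K := by
      intro m n
      have h2 := hw (max m n)
      have h3 := incr_le hK hx (le_max_left m n)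
      have h4 := incr_le hK hy (le_max_right m n)
      have := hK.add_mem _ (hK.add_mem _ h2 _ h3) _ h4
      convert this using 1
      beta_reduce
      abel
    have h2 : ∀ n, (w - s) - y n ∈ K := by
      intro n
      have := hs.2 (w - y n) (fun m => by
        have := h1 m n
        convert this using 1
        abel)
      convert this using 1
      abel
    have := ht.2 (w - s) h2
    convert this using 1
    abel

theorem IsSup.smul (hK : IsOrderCone K) {x : ℕ → X} {s : X} (hs : IsSup K x s) {c : ℝ}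
    (hc : 0 < c) : IsSup K (fun n => c • x n) (c • s) := by
  refine ⟨fun n => ?_, fun w hw => ?_⟩
  · rw [← smul_sub]
    exact hK.smul_mem c hc.le _ (hs.1 n)
  · have h1 := hs.2 (c⁻¹ • w) (fun n => by
      have := hK.smul_mem c⁻¹ (inv_pos.2 hc).le _ (hw n)
      rwa [smul_sub, smul_smul, inv_mul_cancel₀ hc.ne', one_smul] at this)
    have h2 := hK.smul_mem c hc.le _ h1
    rwa [smul_sub, smul_smul, mul_inv_cancel₀ hc.ne', one_smul] at h2

/-- Partial sums `∑_{k<N} a_k d_k`. -/
def P (d : ℕ → X) (a : ℕ → ℝ) (N : ℕ) : X := ∑ k ∈ Finset.range N, a k • d k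

theorem P_incr (hK : IsOrderCone K) {d : ℕ → X} (hd : ∀ k, d k ∈ K) {a : ℕ → ℝ}
    (ha : ∀ k, 0 ≤ a k) : Increasing K (P d a) := by
  intro n
  have : P d a (n + 1) - P d a n = a n • d n := by
    unfold P
    rw [Finset.sum_range_succ]
    abel
  rw [this]
  exact hK.smul_mem _ (ha n) _ (hd n)

theorem P_bdd (hK : IsOrderCone K) {d : ℕ → X} (hd : ∀ k, d k ∈ K) {v : X}
    (hv : ∀ N, v - ∑ k ∈ Finset.range N, d k ∈ K) {a : ℕ → ℝ} {C : ℝ} (hC0 : 0 ≤ C)
    (haC : ∀ k, a k ≤ C) : OrderBounded K (P d a) := by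
  refine ⟨C • v, fun N => ?_⟩
  have h1 := hK.smul_mem C hC0 _ (hv N)
  have h2 := sum_mem hK (Finset.range N) (fun k => (C - a k) • d k)
    (fun k _ => hK.smul_mem _ (sub_nonneg.2 (haC k)) _ (hd k))
  have h3 := hK.add_mem _ h1 _ h2
  convert h3 using 1
  unfold P
  simp only [sub_smul, Finset.sum_sub_distrib, smul_sub, Finset.smul_sum]
  abel

open Classical in
/-- The supremum of the partial sums `∑_{k<N} a_k d_k`. -/
noncomputable def S (K : Set X) (d : ℕ → X) (a : ℕ → ℝ) : X :=
  if h : ∃ s, IsSup K (P d a) s then h.choose else 0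

variable {d : ℕ → X} {v : X}

theorem S_spec (hK : IsOrderCone K) (hS : PropertyS K) (hd : ∀ k, d k ∈ K)
    (hv : ∀ N, v - ∑ k ∈ Finset.range N, d k ∈ K) {a : ℕ → ℝ} {C : ℝ} (ha : ∀ k, 0 ≤ a k)
    (haC : ∀ k, a k ≤ C) : IsSup K (P d a) (S K d a) := by
  have h : ∃ s, IsSup K (P d a) s :=
    hS _ (P_incr hK hd ha) (P_bdd hK hd hv (le_trans (ha 0) (haC 0)) haC)
  unfold S
  rw [dif_pos h]
  exact h.choose_spec

theorem S_add (hK : IsOrderCone K) (hS : PropertyS K) (hd : ∀ k, d k ∈ K)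
    (hv : ∀ N, v - ∑ k ∈ Finset.range N, d k ∈ K) {a b : ℕ → ℝ} {C D : ℝ} (ha : ∀ k, 0 ≤ a k)
    (haC : ∀ k, a k ≤ C) (hb : ∀ k, 0 ≤ b k) (hbD : ∀ k, b k ≤ D) :
    S K d (fun k => a k + b k) = S K d a + S K d b := by
  have h1 := (S_spec hK hS hd hv ha haC).add hK (P_incr hK hd ha) (P_incr hK hd hb)
    (S_spec hK hS hd hv hb hbD)
  have h2 := S_spec hK hS hd hv (a := fun k => a k + b k) (C := C + D)
    (fun k => add_nonneg (ha k) (hb k)) (fun k => add_le_add (haC k) (hbD k))
  refine IsSup.unique hK h2 ?_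
  convert h1 using 1
  funext N
  simp only [P, add_smul, Finset.sum_add_distrib]

theorem S_smul (hK : IsOrderCone K) (hS : PropertyS K) (hd : ∀ k, d k ∈ K)
    (hv : ∀ N, v - ∑ k ∈ Finset.range N, d k ∈ K) {a : ℕ → ℝ} {C c : ℝ} (ha : ∀ k, 0 ≤ a k)
    (haC : ∀ k, a k ≤ C) (hc : 0 ≤ c) :
    S K d (fun k => c * a k) = c • S K d a := by
  have h2 := S_spec hK hS hd hv (a := fun k => c * a k) (C := c * C)
    (fun k => mul_nonneg hc (ha k)) (fun k => mul_le_mul_of_nonneg_left (haC k) hc)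
  rcases hc.eq_or_lt with rfl | hc
  · rw [zero_smul]
    refine IsSup.unique hK h2 ⟨fun n => ?_, fun w hw => ?_⟩
    · simpa [P] using hK.zero_mem
    · simpa [P] using hw 0
  · have h1 := (S_spec hK hS hd hv ha haC).smul hK hc
    refine IsSup.unique hK h2 ?_
    convert h1 using 1
    funext N
    simp only [P, Finset.smul_sum, smul_smul]

theorem S_single (hK : IsOrderCone K) (hS : PropertyS K) (hd : ∀ k, d k ∈ K)
    (hv : ∀ N, v - ∑ k ∈ Finset.range N, d k ∈ K) (i : ℕ) :
    S K d (fun k => if k = i then 1 else 0) = d i := by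
  have h2 := S_spec hK hS hd hv (a := fun k => if k = i then (1 : ℝ) else 0) (C := 1)
    (fun k => by split_ifs <;> norm_num) (fun k => by split_ifs <;> norm_num)
  have hP : ∀ N, P d (fun k => if k = i then (1 : ℝ) else 0) N = if i < N then d i else 0 := by
    intro N
    simp [P, ite_smul, Finset.sum_ite_eq']
  refine IsSup.unique hK h2 ⟨fun n => ?_, fun w hw => ?_⟩
  · rw [hP]
    split_ifs
    · simpa using hK.zero_mem
    · simpa using hd i
  · have := hw (i + 1)
    rw [hP, if_pos (Nat.lt_succ_self i)] at this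
    exact this

theorem T_indep (hK : IsOrderCone K) (hS : PropertyS K) (hd : ∀ k, d k ∈ K)
    (hv : ∀ N, v - ∑ k ∈ Finset.range N, d k ∈ K) {f : ℕ → ℝ} {B c c' : ℝ} (hB : ∀ k, f k ≤ B)
    (hc : 0 ≤ c) (hc' : 0 ≤ c') (h : ∀ k, 0 ≤ f k + c) (h' : ∀ k, 0 ≤ f k + c') :
    S K d (fun k => f k + c) - c • S K d (fun _ => 1) =
      S K d (fun k => f k + c') - c' • S K d (fun _ => 1) := by
  have e1 : S K d (fun k => (f k + c) + c' * 1) =
      S K d (fun k => f k + c) + c' • S K d (fun _ => 1) := by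
    rw [S_add hK hS hd hv (a := fun k => f k + c) (b := fun _ => c' * 1) (C := B + c)
      (D := c' * 1) h (fun k => by linarith [hB k]) (fun _ => by linarith) (fun _ => le_rfl),
      S_smul hK hS hd hv (a := fun _ => 1) (C := 1) (fun _ => zero_le_one) (fun _ => le_rfl) hc']
  have e2 : S K d (fun k => (f k + c') + c * 1) =
      S K d (fun k => f k + c') + c • S K d (fun _ => 1) := by
    rw [S_add hK hS hd hv (a := fun k => f k + c') (b := fun _ => c * 1) (C := B + c')
      (D := c * 1) h' (fun k => by linarith [hB k]) (fun _ => by linarith) (fun _ => le_rfl),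
      S_smul hK hS hd hv (a := fun _ => 1) (C := 1) (fun _ => zero_le_one) (fun _ => le_rfl) hc]
  have e3 : (fun k => (f k + c) + c' * 1) = (fun k => (f k + c') + c * 1) := by
    funext k
    ring
  rw [e3, e2] at e1
  rw [sub_eq_sub_iff_add_eq_add]
  rw [e1]

theorem abs_le_norm (f : lp (fun _ : ℕ => ℝ) ⊤) (k : ℕ) : |f k| ≤ ‖f‖ := by
  have := lp.norm_apply_le_norm ENNReal.top_ne_zero f k
  simpa using this

/-- The operator `T : ℓ_∞ → X`, `T f = sup_N ∑_{k<N} f_k d_k`. -/
noncomputable def T (hK : IsOrderCone K) (hS : PropertyS K) (hd : ∀ k, d k ∈ K)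
    (hv : ∀ N, v - ∑ k ∈ Finset.range N, d k ∈ K) : lp (fun _ : ℕ => ℝ) ⊤ →ₗ[ℝ] X where
  toFun f := S K d (fun k => f k + ‖f‖) - ‖f‖ • S K d (fun _ => 1)
  map_add' f g := by
    have hf := abs_le_norm f
    have hg := abs_le_norm g
    have hfg := abs_le_norm (f + g)
    rw [T_indep hK hS hd hv (f := fun k => (f + g) k) (B := ‖f + g‖) (c := ‖f + g‖)
      (c' := ‖f‖ + ‖g‖) (fun k => (abs_le.1 (hfg k)).2) (norm_nonneg _) (by positivity)
      (fun k => by linarith [(abs_le.1 (hfg k)).1]) (fun k => by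
        rw [lp.coeFn_add, Pi.add_apply]
        linarith [(abs_le.1 (hf k)).1, (abs_le.1 (hg k)).1])]
    have e : (fun k => (f + g) k + (‖f‖ + ‖g‖)) = fun k => (f k + ‖f‖) + (g k + ‖g‖) := by
      funext k
      rw [lp.coeFn_add, Pi.add_apply]
      ring
    rw [e, S_add hK hS hd hv (a := fun k => f k + ‖f‖) (b := fun k => g k + ‖g‖)
      (C := ‖f‖ + ‖f‖) (D := ‖g‖ + ‖g‖) (fun k => by linarith [(abs_le.1 (hf k)).1])
      (fun k => by linarith [(abs_le.1 (hf k)).2]) (fun k => by linarith [(abs_le.1 (hg k)).1])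
      (fun k => by linarith [(abs_le.1 (hg k)).2]), add_smul]
    abel
  map_smul' c f := by
    have hf := abs_le_norm f
    simp only [RingHom.id_apply]
    have key : ∀ (c : ℝ), 0 ≤ c → ∀ f : lp (fun _ : ℕ => ℝ) ⊤,
        S K d (fun k => (c • f) k + ‖c • f‖) - ‖c • f‖ • S K d (fun _ => 1) =
        c • (S K d (fun k => f k + ‖f‖) - ‖f‖ • S K d (fun _ => 1)) := by
      intro c hc f
      have hf := abs_le_norm f
      have e : (fun k => (c • f) k + ‖c • f‖) = fun k => c * (f k + ‖f‖) := by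
        funext k
        rw [lp.coeFn_smul, Pi.smul_apply, norm_smul, Real.norm_of_nonneg hc, smul_eq_mul]
        ring
      rw [e, S_smul hK hS hd hv (a := fun k => f k + ‖f‖) (C := ‖f‖ + ‖f‖)
        (fun k => by linarith [(abs_le.1 (hf k)).1]) (fun k => by linarith [(abs_le.1 (hf k)).2])
        hc, norm_smul, Real.norm_of_nonneg hc, smul_sub, smul_smul]
    rcases le_or_gt 0 c with hc | hc
    · exact key c hc f
    · have h1 := key (-c) (by linarith) f
      -- additivity for `c • f + (-c) • f = 0`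
      have hcf := abs_le_norm (c • f)
      have e1 : ∀ k, (c • f) k = -(((-c) • f) k) := by
        intro k
        rw [neg_smul, lp.coeFn_neg, Pi.neg_apply, neg_neg]
      have hn : ‖(-c) • f‖ = ‖c • f‖ := by rw [neg_smul, norm_neg]
      have h2 := S_add hK hS hd hv (a := fun k => (c • f) k + ‖c • f‖)
        (b := fun k => ((-c) • f) k + ‖c • f‖) (C := ‖c • f‖ + ‖c • f‖) (D := ‖c • f‖ + ‖c • f‖)
        (fun k => by linarith [(abs_le.1 (hcf k)).1]) (fun k => by linarith [(abs_le.1 (hcf k)).2])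
        (fun k => by
          have := e1 k
          linarith [(abs_le.1 (hcf k)).2]) (fun k => by
          have := e1 k
          linarith [(abs_le.1 (hcf k)).1])
      have e2 : (fun k => ((c • f) k + ‖c • f‖) + (((-c) • f) k + ‖c • f‖)) =
          fun _ => (2 * ‖c • f‖) * 1 := by
        funext k
        rw [e1 k]
        ring
      rw [e2, S_smul hK hS hd hv (a := fun _ => 1) (C := 1) (fun _ => zero_le_one)
        (fun _ => le_rfl) (by positivity)] at h2
      rw [hn] at h1
      have h3 : S K d (fun k => (c • f) k + ‖c • f‖) =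
          (2 * ‖c • f‖) • S K d (fun _ => 1) - S K d (fun k => ((-c) • f) k + ‖c • f‖) := by
        rw [h2]
        abel
      have h4 : S K d (fun k => ((-c) • f) k + ‖c • f‖) =
          (-c) • (S K d (fun k => f k + ‖f‖) - ‖f‖ • S K d (fun _ => 1)) +
            ‖c • f‖ • S K d (fun _ => 1) := by
        rw [← h1]
        abel
      rw [h3, h4, neg_smul, two_mul, add_smul]
      abel

theorem T_upper (hK : IsOrderCone K) (hS : PropertyS K) (hd : ∀ k, d k ∈ K)
    (hv : ∀ N, v - ∑ k ∈ Finset.range N, d k ∈ K) (f : lp (fun _ : ℕ => ℝ) ⊤) :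
    T hK hS hd hv f + ‖f‖ • S K d (fun _ => 1) ∈ K := by
  have hf := abs_le_norm f
  have h := (S_spec hK hS hd hv (a := fun k => f k + ‖f‖) (C := ‖f‖ + ‖f‖)
    (fun k => by linarith [(abs_le.1 (hf k)).1]) (fun k => by linarith [(abs_le.1 (hf k)).2])).1 0
  change S K d (fun k => f k + ‖f‖) - ‖f‖ • S K d (fun _ => 1) + ‖f‖ • S K d (fun _ => 1) ∈ K
  simpa [P] using h

theorem T_cont [CompleteSpace X] (hK : IsOrderCone K) (hS : PropertyS K) (hd : ∀ k, d k ∈ K)
    (hv : ∀ N, v - ∑ k ∈ Finset.range N, d k ∈ K) : Continuous (T hK hS hd hv) := by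
  refine LinearMap.continuous_of_seq_closed_graph _ fun u x y hu hy => ?_
  have h1 : Tendsto (fun n => ‖u n - x‖ • S K d (fun _ => 1)) atTop (𝓝 0) := by
    have h2 : Tendsto (fun n => ‖u n - x‖) atTop (𝓝 0) :=
      tendsto_iff_norm_sub_tendsto_zero.1 hu
    simpa using h2.smul_const (S K d (fun _ => 1))
  have h2 : Tendsto (fun n => T hK hS hd hv (u n) - T hK hS hd hv x +
      ‖u n - x‖ • S K d (fun _ => 1)) atTop (𝓝 (y - T hK hS hd hv x + 0)) :=
    (hy.sub_const _).add h1
  have h3 : Tendsto (fun n => T hK hS hd hv x - T hK hS hd hv (u n) +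
      ‖u n - x‖ • S K d (fun _ => 1)) atTop (𝓝 (T hK hS hd hv x - y + 0)) :=
    (tendsto_const_nhds.sub hy).add h1
  have h4 : y - T hK hS hd hv x ∈ K := by
    have := hK.closed.mem_of_tendsto h2 (Eventually.of_forall fun n => by
      have := T_upper hK hS hd hv (u n - x)
      rwa [map_sub] at this)
    simpa using this
  have h5 : T hK hS hd hv x - y ∈ K := by
    have := hK.closed.mem_of_tendsto h3 (Eventually.of_forall fun n => by
      have := T_upper hK hS hd hv (x - u n)
      rwa [map_sub, norm_sub_rev] at this)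
    simpa using this
  exact sub_eq_zero.1 (hK.salient _ h4 (by simpa using h5))

theorem T_single (hK : IsOrderCone K) (hS : PropertyS K) (hd : ∀ k, d k ∈ K)
    (hv : ∀ N, v - ∑ k ∈ Finset.range N, d k ∈ K) (i : ℕ) :
    T hK hS hd hv (lp.single ⊤ i 1) = d i := by
  have hf := abs_le_norm (lp.single ⊤ i (1 : ℝ))
  have e : ∀ k, (lp.single ⊤ i (1 : ℝ) : lp (fun _ : ℕ => ℝ) ⊤) k = if k = i then 1 else 0 := by
    intro k
    rw [lp.single_apply, Pi.single_apply]
  change S K d (fun k => (lp.single ⊤ i (1 : ℝ) : lp (fun _ : ℕ => ℝ) ⊤) k +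
    ‖(lp.single ⊤ i (1 : ℝ) : lp (fun _ : ℕ => ℝ) ⊤)‖) - _ = _
  rw [T_indep hK hS hd hv (f := fun k => (lp.single ⊤ i (1 : ℝ) : lp (fun _ : ℕ => ℝ) ⊤) k)
    (B := ‖(lp.single ⊤ i (1 : ℝ) : lp (fun _ : ℕ => ℝ) ⊤)‖)
    (c := ‖(lp.single ⊤ i (1 : ℝ) : lp (fun _ : ℕ => ℝ) ⊤)‖) (c' := 0)
    (fun k => (abs_le.1 (hf k)).2) (norm_nonneg _) le_rfl
    (fun k => by linarith [(abs_le.1 (hf k)).1]) (fun k => by
      rw [e]
      split_ifs <;> norm_num)]
  simp only [add_zero, zero_smul, sub_zero, e]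
  exact S_single hK hS hd hv i

end

/-- The indicator of `A` as an element of `ℓ_∞`. -/
noncomputable def ind (A : Set ℕ) : lp (fun _ : ℕ => ℝ) ⊤ :=
  ⟨A.indicator (fun _ => 1), by
    refine memℓp_infty ⟨1, ?_⟩
    rintro _ ⟨k, rfl⟩
    by_cases h : k ∈ A <;> simp [h]⟩

theorem ind_apply (A : Set ℕ) (k : ℕ) : ind A k = A.indicator (fun _ => (1 : ℝ)) k := rfl

/-- **Separable ordered Banach spaces in which every order bounded increasing sequence has a
supremum**: every order bounded increasing sequence converges in norm. No normality of the cone is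
assumed. -/
theorem result (X : Type*) [NormedAddCommGroup X] [NormedSpace ℝ X] [CompleteSpace X]
    [TopologicalSpace.SeparableSpace X] (K : Set X) (hK : IsOrderCone K) (hS : PropertyS K)
    (x : ℕ → X) (hx : Increasing K x) (hb : OrderBounded K x) :
    ∃ s, Tendsto x atTop (𝓝 s) := by
  apply cauchySeq_tendsto_of_complete
  by_contra hcon
  rw [Metric.cauchySeq_iff'] at hcon
  push Not at hcon
  obtain ⟨ε, hε, hN⟩ := hcon
  choose g hg1 hg2 using hN
  -- the subsequence
  let φ : ℕ → ℕ := fun k => g^[k] 0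
  have hφ : ∀ k, φ (k + 1) = g (φ k) := fun k => Function.iterate_succ_apply' g k 0
  obtain ⟨w, hw⟩ := hb
  let d : ℕ → X := fun k => x (φ (k + 1)) - x (φ k)
  have hd : ∀ k, d k ∈ K := fun k => incr_le hK hx (by
    rw [hφ]
    exact hg1 _)
  have hsum : ∀ N, ∑ k ∈ Finset.range N, d k = x (φ N) - x (φ 0) := fun N =>
    Finset.sum_range_sub (fun k => x (φ k)) N
  have hv : ∀ N, (w - x (φ 0)) - ∑ k ∈ Finset.range N, d k ∈ K := by
    intro N
    rw [hsum]
    have := hw (φ N)
    convert this using 1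
    abel
  have hdn : ∀ k, ε ≤ ‖d k‖ := by
    intro k
    have := hg2 (φ k)
    rw [← hφ, dist_eq_norm] at this
    exact this
  -- the operator
  let Tc : lp (fun _ : ℕ => ℝ) ⊤ →L[ℝ] X := ⟨T hK hS hd hv, T_cont hK hS hd hv⟩
  have hT1 : ∀ i, Tc (lp.single ⊤ i 1) = d i := fun i => T_single hK hS hd hv i
  have hdual : ∀ i, ∃ g : StrongDual ℝ X, ‖g‖ ≤ 1 ∧ g (d i) = ‖d i‖ := fun i =>
    exists_dual_vector'' ℝ (d i)
  choose ψ hψ1 hψ2 using hdual
  obtain ⟨M, -, hMi, hM⟩ := Pool.Agent.Helper234.LInf.rosenthal_lemma ℝ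
    (fun i => (ψ i).comp Tc) ‖Tc‖ (fun i => by
      refine (ContinuousLinearMap.opNorm_comp_le _ _).trans ?_
      calc ‖ψ i‖ * ‖Tc‖ ≤ 1 * ‖Tc‖ := by gcongr; exact hψ1 i
        _ = ‖Tc‖ := one_mul _) Set.univ Set.infinite_univ (ε / 2) (by positivity)
  -- separation
  have hsep : ∀ A B : Set ℕ, A ⊆ M → B ⊆ M → ∀ i, i ∈ A → i ∉ B →
      ε / 2 ≤ ‖Tc (ind A) - Tc (ind B)‖ := by
    intro A B hA hB i hiA hiB
    set y : lp (fun _ : ℕ => ℝ) ⊤ := ind A - ind B - lp.single ⊤ i 1 with hy
    have hyk : ∀ k, y k = A.indicator (fun _ => (1 : ℝ)) k - B.indicator (fun _ => (1 : ℝ)) k -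
        if k = i then 1 else 0 := by
      intro k
      rw [hy, lp.coeFn_sub, Pi.sub_apply, lp.coeFn_sub, Pi.sub_apply, ind_apply, ind_apply,
        lp.single_apply, Pi.single_apply]
    have hy1 : ‖y‖ ≤ 1 := by
      refine lp.norm_le_of_forall_le zero_le_one fun k => ?_
      rw [hyk, Real.norm_eq_abs]
      by_cases hki : k = i
      · subst hki
        simp [hiA, hiB]
      · by_cases h1 : k ∈ A <;> by_cases h2 : k ∈ B <;> simp [h1, h2, hki]
    have hy2 : ∀ k, y k ≠ 0 → k ∈ M ∧ k ≠ i := by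
      intro k hk
      rw [hyk] at hk
      by_cases hki : k = i
      · subst hki
        simp [hiA, hiB] at hk
      · refine ⟨?_, hki⟩
        by_contra hkM
        have h1 : k ∉ A := fun h => hkM (hA h)
        have h2 : k ∉ B := fun h => hkM (hB h)
        simp [h1, h2, hki] at hk
    have h3 := hM i (hA hiA) y hy1 hy2
    have h4 : Tc (ind A) - Tc (ind B) = d i + Tc y := by
      rw [hy, map_sub, map_sub, hT1]
      abel
    have h5 : ψ i (Tc (ind A) - Tc (ind B)) = ‖d i‖ + ψ i (Tc y) := by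
      rw [h4, map_add, hψ2]
    have h6 : |ψ i (Tc y)| ≤ ε / 2 := by simpa using h3
    have h7 : ψ i (Tc (ind A) - Tc (ind B)) ≤ ‖Tc (ind A) - Tc (ind B)‖ := by
      refine le_trans (le_abs_self _) ?_
      have := (ψ i).le_opNorm (Tc (ind A) - Tc (ind B))
      rw [Real.norm_eq_abs] at this
      refine this.trans ?_
      calc ‖ψ i‖ * _ ≤ 1 * ‖Tc (ind A) - Tc (ind B)‖ := by gcongr; exact hψ1 i
        _ = _ := one_mul _
    have h8 := hdn i
    have h9 := (abs_le.1 h6).1
    linarith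
  have hsep' : ∀ A B : Set M, A ≠ B →
      ε / 2 ≤ ‖Tc (ind ((↑) '' A)) - Tc (ind ((↑) '' B))‖ := by
    intro A B hAB
    have hAM : ∀ A : Set M, (((↑) : M → ℕ) '' A) ⊆ M := by
      rintro A _ ⟨k, _, rfl⟩
      exact k.2
    obtain ⟨i, hi⟩ : ∃ i : M, ¬ (i ∈ A ↔ i ∈ B) := by
      by_contra h
      push Not at h
      exact hAB (Set.ext h)
    have hmem : ∀ A : Set M, (i : ℕ) ∈ (((↑) : M → ℕ) '' A) ↔ i ∈ A := by
      intro A
      constructor
      · rintro ⟨k, hk, hki⟩
        rwa [← Subtype.ext hki]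
      · intro h
        exact ⟨i, h, rfl⟩
    by_cases hiA : i ∈ A
    · have hiB : i ∉ B := fun h => hi ⟨fun _ => h, fun _ => hiA⟩
      exact hsep _ _ (hAM A) (hAM B) i ((hmem A).2 hiA) (fun h => hiB ((hmem B).1 h))
    · have hiB : i ∈ B := by
        by_contra h
        exact hi ⟨fun h' => absurd h' hiA, fun h' => absurd h' h⟩
      rw [norm_sub_rev]
      exact hsep _ _ (hAM B) (hAM A) i ((hmem B).2 hiB) (fun h => hiA ((hmem A).1 h))
  have hcount : (Set.univ : Set (Set M)).Countable := by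
    refine Set.PairwiseDisjoint.countable_of_isOpen
      (s := fun A : Set M => Metric.ball (Tc (ind ((↑) '' A))) (ε / 4)) ?_
      (fun A _ => Metric.isOpen_ball) (fun A _ => ⟨_, Metric.mem_ball_self (by positivity)⟩)
    intro A _ B _ hAB
    refine Metric.ball_disjoint_ball ?_
    rw [dist_eq_norm]
    have := hsep' A B hAB
    linarith
  rw [Set.countable_univ_iff] at hcount
  have hinf : Infinite M := hMi.to_subtype
  obtain ⟨e, he⟩ := exists_surjective_nat (Set M)
  have h1 : Function.Surjective (Function.invFun (Infinite.natEmbedding M)) :=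
    Function.invFun_surjective (Infinite.natEmbedding M).injective
  exact Function.cantor_surjective _ (he.comp h1)

end Pool.Agent.Results.MP_06b617_an.SeparableMonotoneConvergence
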